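import Mathlib
import Pool.Agent.TH697.LPClique.Final
import Pool.Agent.TH697.LPClique.Upper

/-!
# Linear programs need brute force for the clique problem, semidefinite programs do not

A linear programming formulation of the `k`-clique problem for graphs with `n` vertices is a system
of linear inequalities and equations, the same for all graphs, with a solution `point S` for every
set `S` of `k` vertices; a graph `G` enters by an affine objective function whose value at `point S`
is the number of pairs in `S` which are not edges of `G`. Exhaustive search is such a formulation
with `n.choose k` inequalities: if `G` has no `k`-clique, the minimum of the objective function is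
positive. We show, for formulations with any number of variables and equations:

* For every `ε > 0` there is `c` such that for all large `n` and all `k` with `c ≤ k`, `k ^ c ≤ n`,
  formulations with less than `n ^ ((1 - ε) k)` inequalities fail badly: there is a complete
  multipartite graph with at most `(1 - 1 / c) k` parts for which the minimum of the objective
  function is less than `n ^ (- k / c)` (its minimum over the points `S` is at least `k / c`).
* For every `γ > 0` there is `c` such that for all large `n` and all `k` with `n ^ γ ≤ k ≤ n / 2`
  (for instance the function of the problem, where `k` is the least number above `√n`), formulations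
  with less than `2 ^ (n ^ (1 / c))` inequalities fail: there is a complete multipartite graph with
  at most `k - 1` parts for which the minimum is less than `2 ^ (- n ^ (1 / c))`.
* Exhaustive search is a formulation with `n.choose k ≤ n ^ k` inequalities.
* A semidefinite programming formulation of order `n` with `n ^ 2` linear inequalities shows for
  every `G` with chromatic number at most `h` that the minimum is at least `k (k - h) / (2 h)`.

Proof of the lower bounds. `K` disjoint sets of `q` vertices are chosen, the vertices are coloured
with `H < K` colours in all possible ways. The numbers of collisions form a matrix with a row for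
every colouring and a column for every transversal; by Farkas' lemma a formulation with `s`
inequalities gives a nonnegative factorization with `s + 1` terms of this matrix minus the margin,
and the lower bound for the number of terms of helper689 (`TH689.LX.factor_bound`) applies.
-/

set_option autoImplicit false

namespace Pool.Agent.Results.MP_0a1b52_lc.LPNeedsBruteForce

open Filter Pool.Agent.TH697.LPClique

theorem result :
    (∀ ε : ℝ, 0 < ε → ∃ c : ℕ, 0 < c ∧ ∀ᶠ n : ℕ in atTop, ∀ k : ℕ, c ≤ k → k ^ c ≤ n →
      ∀ (s : ℕ) (P : LPFormulation n k s),
        (∀ h : ℕ, c * h + k ≤ c * k → ∀ f : Fin n → Fin h,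
          P.Certifies (multipartite f) ((n : ℝ) ^ (-((k : ℝ) / c)))) →
        (n : ℝ) ^ ((1 - ε) * k) ≤ s) ∧
    (∀ γ : ℝ, 0 < γ → ∃ c : ℕ, 0 < c ∧ ∀ᶠ n : ℕ in atTop, ∀ k : ℕ, (n : ℝ) ^ γ ≤ k → 2 * k ≤ n →
      ∀ (s : ℕ) (P : LPFormulation n k s),
        (∀ f : Fin n → Fin (k - 1),
          P.Certifies (multipartite f) ((2 : ℝ) ^ (-((n : ℝ) ^ (1 / (c : ℝ)))))) →
        (2 : ℝ) ^ ((n : ℝ) ^ (1 / (c : ℝ))) ≤ s) ∧
    (∀ n k : ℕ, ∃ P : LPFormulation n k (n.choose k), ∀ (G : SimpleGraph (Fin n)) (δ : ℝ),
      (∀ S : Finset (Fin n), S.card = k → δ ≤ missing G S) → P.Certifies G δ) ∧
    (∀ n k : ℕ, ∃ P : SDPFormulation n k n (n * n), ∀ (G : SimpleGraph (Fin n)) (h : ℕ),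
      0 < h → G.Colorable h → P.Certifies G ((k : ℝ) * (k - h) / (2 * h))) :=
  ⟨lp_small, lp_large, lp_upper, sdp_upper⟩

end Pool.Agent.Results.MP_0a1b52_lc.LPNeedsBruteForce
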