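import Pool.Agent.TH706.LS.Ham

/-!
# The clique function: linear space for linearly many reads, even with an unlimited stack

The programs are deterministic, non-uniform, with random access to the adjacency bits, with `s` nodes
(a memory of `log s` bits) and with a stack (pushdown store) of unlimited height for arbitrary
symbols; the number of steps is unlimited too. By the non-uniform version of Cook's theorem (1971)
the programs of this kind with polynomially many nodes compute exactly the functions that have
circuits of polynomial size. So the clique function has circuits of polynomial size if and only if
it is computed by programs of this kind with polynomially many nodes. The only resource that is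
bounded here, apart from the number of the nodes, is the number of the reads of adjacency bits. The
theorem says that for every constant `k` more than `k n ^ 2` reads are needed, even if there are
`2 ^ (n ^ 2 / D)` nodes, and even if the programs are randomised with one-sided error and find out that
there is no clique of size `s` only with probability `2 ^ (- n ^ 2 / D)`; `s` may be any number
between `D` and `n / 2`, for instance `⌊√n⌋ + 1`. With `2 ^ (n ^ 2)` nodes `n ^ 2` reads are enough,
so that this is optimal up to the constant `D`.

(The file `LinearTimePrograms` of the starting files has the same bound for deterministic programs
without a stack, that is, for devices that with polynomially many nodes compute L/poly.)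

Proof. The quadratic forms of `Pool.Agent.W952.Frm` are put into graphs which have a clique of size
`s` if and only if one of the forms is not zero (`Pool.Agent.W952.Clq.fam`), in such a way that a
constant fraction of all pairs of vertices carries a variable. A computation with a stack and
`k n ^ 2` reads is cut into a constant number of pieces which are determined by a few nodes and the
answers to their own reads (`Pool.Agent.W896.PD.blocks`); so the inputs with the same nodes are of
the kind to which the rectangle theorem for linear time applies (Ajtai; Beame, Saks, Sun and Vee;
`Pool.Agent.H554R2.Lin`), while the common zeros of the forms contain no large rectangle.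
-/

set_option autoImplicit false

namespace Pool.Agent.Results.MP_0a1b52_lc.LinearReadsStack

open Pool.Agent.TH706.LS
open Pool.Agent.W896.PD (PP)

/-- `bits G` are the adjacency bits of the graph `G`, and `Ans P x t b` says that the program `P`
answers `b` on the input `x` after at most `t` reads. For every `k` there is a `D` such that for all
`n ≥ D`, all `s` with `D ≤ s ≤ n / 2`, and every finite family of programs `P i` with a stack, with
fewer than `2 ^ (n ^ 2 / D)` nodes each, none of which answers `false` on a graph with `n` vertices
that has a clique of size `s`, after at most `k n ^ 2` reads: there is a graph without a clique of
size `s` on which fewer than a `2 ^ (- ⌊n ^ 2 / D⌋)` fraction of the programs answer `false` after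
at most `k n ^ 2` reads. -/
theorem result (k : ℕ) : ∃ D : ℕ, 0 < D ∧ ∀ n ≥ D, ∀ s, D ≤ s → 2 * s ≤ n →
    ∀ (I : Type) [Fintype I] [Nonempty I] (P : I → PP (Sym2 (Fin n)) Bool),
    (∀ i, Fintype.card (P i).State < 2 ^ (n ^ 2 / D)) →
    (∀ G : SimpleGraph (Fin n), ¬ G.CliqueFree s →
      ∀ i, ¬ Ans (P i) (bits G) (k * n ^ 2) false) →
    ∃ G : SimpleGraph (Fin n), G.CliqueFree s ∧
      2 ^ (n ^ 2 / D) * Nat.card {i : I // Ans (P i) (bits G) (k * n ^ 2) false} <
        Nat.card I :=
  clique_main k

end Pool.Agent.Results.MP_0a1b52_lc.LinearReadsStack
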