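import Pool.Agent.TH272.Nec.CliqueHeavy

set_option autoImplicit false

/-!
# The clique problem: shared gates that depend on many pairs of vertices

The function decides whether a graph with `n` vertices has a clique with more than `√n` vertices
(this is the function of the problem), or with `s` vertices, where `4 log₂ n ≤ s ≤ n / 2`.

A circuit over the full binary basis is written as a sequence of formulas, one for each gate whose
value is used more than once (a shared gate) and one for the output; a leaf of a formula reads the
input or refers to an earlier shared gate. Every circuit is of this form. A shared gate is heavy if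
it depends on more than `d` pairs of vertices (directly or by other shared gates). The circuits are
random and have error probability at most `1 / 3` on every graph. For all `d` the expected numbers
satisfy
`n ^ 4 / (5 * 10 ^ 5 log₂ n) ≤ leaves + d (references + shared gates) +
  n ^ 2 / (16 log₂ n) (references to heavy gates + heavy gates)`.

* So without heavy gates the size is at least of order `n ^ 4 / (d log n)`, and in a circuit of linear
  size `K n ^ 2` there are `c n ^ 2` references to shared gates, or shared gates, that depend on at
  least `c_K n ^ 2 / log n` pairs.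
* For `d = 0` the inequality says that there are `c n ^ 2` references and shared gates, or
  `c n ^ 4 / log n` leaves; the formula size is at least `c n ^ 4 / log n`.

The second part is for pairs which are divided into blocks in any way, and leaves which are arbitrary
predicates of a block; a shared gate is heavy if it depends on more than `d` blocks. Each block of a
family `B` of matchings with at least `4 log₂ n` edges contributes `n ^ 2 / 12800`.

Proof. Let the pairs in one matching of `4 log₂ n` edges be free. They can ask for each of about
`n ^ 2 / 256` bits which are encoded in the other pairs. If these are fixed then the references to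
shared gates which do not depend on the block are constants, so the number of subfunctions is at most
`2 ^ (1 + s) 16 ^ (r + l)`, where `s` is the number of shared gates that depend on the block, `r` is
the number of references to them and `l` is the number of leaves that read the block.
-/

namespace Pool.Agent.Results.MP_0a1b52_lc.LocalSharing

open Pool.Agent.TH272.Nec

theorem result (n : ℕ) (hn : 2 ^ 11 ≤ n) (P : SimpleGraph (Fin n) → Prop)
    (hP : (∀ G, P G ↔
        ∃ K : Finset (Fin n), G.IsClique (K : Set (Fin n)) ∧ Real.sqrt n < K.card) ∨
      ∃ s : ℕ, 4 * Nat.log 2 n ≤ s ∧ 2 * s ≤ n ∧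
        ∀ G, P G ↔ ∃ K : Finset (Fin n), G.IsClique (K : Set (Fin n)) ∧ K.card = s)
    (d : ℕ) (Ω : Type) [Fintype Ω] (μ : Ω → ℝ) :
    (∀ C : Ω → Circuit (Sym2 (Fin n)) (fun _ => Bool),
      Computes μ C (fun x => P (SimpleGraph.fromEdgeSet {e | x e = true})) →
        (n : ℝ) ^ 4 / (5 * 10 ^ 5 * Nat.log 2 n) ≤ mean μ (fun ω => (C ω).leaves) +
          d * (mean μ (fun ω => (C ω).refs) + mean μ (fun ω => (C ω).shared)) +
          n ^ 2 / (16 * Nat.log 2 n) *
            (mean μ (fun ω => (C ω).heavyRefs d) + mean μ (fun ω => (C ω).heavyGates d))) ∧
    (∀ (κ : Type) [DecidableEq κ] (block : Sym2 (Fin n) → κ) (B : Finset κ),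
      (∀ i ∈ B, IsMatchingBlock block (4 * Nat.log 2 n) i) →
      ∀ C : Ω → Circuit κ (Item block), Computes μ C (fun x => P (graph block x)) →
        (n : ℝ) ^ 2 / 12800 * B.card ≤ mean μ (fun ω => (C ω).leaves) +
          d * (mean μ (fun ω => (C ω).refs) + mean μ (fun ω => (C ω).shared)) +
          B.card *
            (mean μ (fun ω => (C ω).heavyRefs d) + mean μ (fun ω => (C ω).heavyGates d))) := by
  obtain ⟨s, h1, h2, h3⟩ : ∃ s : ℕ, 4 * Nat.log 2 n ≤ s ∧ 2 * s ≤ n ∧
      ∀ G, P G ↔ ¬ G.CliqueFree s := by
    rcases hP with h | ⟨s, h1, h2, h3⟩
    · exact ⟨Nat.sqrt n + 1, (Clq.sqrt_bounds hn).1, (Clq.sqrt_bounds hn).2,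
        fun G => (h G).trans (Clq.big_iff G)⟩
    · exact ⟨s, h1, h2, fun G => (h3 G).trans (Clq.not_cliqueFree_iff G).symm⟩
  obtain rfl : P = fun G => ¬ G.CliqueFree s := funext fun G => propext (h3 G)
  exact ⟨fun C hC => Clq.single_heavy hn h1 h2 μ C hC d, fun κ _ block B hB C hC =>
    Clq.blocks_heavy hn h1 h2 block B hB μ C hC d⟩

end Pool.Agent.Results.MP_0a1b52_lc.LocalSharing
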