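import Pool.Agent.TH658.Xg.Gap4
import Pool.Agent.TH658.Xg.GapBrute
import Pool.Agent.TH658.Xg.Rand

set_option autoImplicit false

/-!
# Symmetric programs of linear algebra cannot approximate the clique number

The symmetric group `Sₙ` acts on the graphs with the vertices `0, ..., n - 1`. A symmetric program
is a sequence of gates. The value of a gate is an arbitrary function of the isomorphism class of a
vector space of dimension `r` (over some field of characteristic not two, which may depend on the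
gate) with endomorphisms and sesquilinear forms, on which a subgroup `H` of `Sₙ` acts by a linear
representation (`ClassGate`, cost `r^2 [Sₙ : H]`), or an arbitrary function of the traces of the
products of `r × r` matrices on which each permutation in `H` acts by some conjugation
(`TraceGate`, cost `r^4 [Sₙ : H]`). The entries of the matrices are linear combinations of
arbitrary functions of induced subgraphs with at most `d` vertices and of arbitrary functions of
the value of an earlier gate at the graph with permuted vertices. A gate thus stands for the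
`[Sₙ : H]` gates which one gets from it by permuting the vertices; the cost is the number of the
entries of their matrices.

For instance, take a circuit with inputs the edges and with gates which compute arbitrary functions
of the number of their true inputs, or of the rank over a field of characteristic not two of a
matrix of inputs, and assume that it is mapped to itself by all permutations of the vertices. It is
a symmetric program; its cost is the number of its gates of the first kind plus the number of the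
entries of the matrices of the gates of the second kind.

(1) For `n ≥ k 2^b`, `b ≥ 4000 R^2`, `k ≤ R q`, `d ≤ k / (1200 R^2)` there are two distributions on
graphs with `n` vertices, one on graphs with a clique of `k` vertices, one on graphs without a
clique of `q` vertices, such that the distributions of the value of a symmetric program of cost `S`
differ by at most `S / 8^⌊k b / (4000 R^2)⌋`.
(2) So randomized symmetric programs which distinguish the graphs with a clique of `k` vertices from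
the graphs without a clique of `q` vertices with error `1 / 3` have expected cost at least
`(n / k)^(k / (4000 R^2))` if `n / k ≥ 2^(4000 R^2)`.
(3) For cliques with more than `√n` vertices this is at least `n^(√n / (9000 R^2))` if
`n ≥ 2^(8002 R^2)`, even if only the graphs without a clique with a fraction `1 / R` of these
vertices must be rejected.
(4) Exhaustive search is a symmetric program of cost at most `n.choose k + 1`.
-/

namespace Pool.Agent.Results.MP_0a1b52_lc.SymmetricGapPrograms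

open Pool.Agent.TH658.Xg

/-- The sum over the gates of the square (for class gates; for trace gates the fourth power) of the
dimension, times the index of the group. -/
noncomputable def cost {n s : ℕ} (H : Fin s → Subgroup (Equiv.Perm (Fin n))) (r p : Fin s → ℕ) :
    ℕ := ∑ j, r j ^ p j * (H j).index

/-- `v` is a symmetric program which reads induced subgraphs with at most `d` vertices. -/
def IsGraphProgram {n s : ℕ} {V : Type} (d : ℕ) (v : Fin s → SimpleGraph (Fin n) → V)
    (H : Fin s → Subgroup (Equiv.Perm (Fin n))) (r p : Fin s → ℕ) : Prop :=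
  IsProgram (Equiv.Perm (Fin n)) (LocalGraph n d) v H r p

/-- The values of the programs have nearly the same distribution on the families `F`, `G`. -/
def Fooled {n : ℕ} (d : ℕ) (B : ℝ) {Ω : Type} (F G : Ω → SimpleGraph (Fin n)) : Prop :=
  ∀ (s : ℕ) (V : Type) (v : Fin s → SimpleGraph (Fin n) → V)
    (H : Fin s → Subgroup (Equiv.Perm (Fin n))) (r p : Fin s → ℕ), IsGraphProgram d v H r p →
    ∀ (j₀ : Fin s) (T : Set V),
    |(Nat.card {ω // v j₀ (F ω) ∈ T} : ℝ) - Nat.card {ω // v j₀ (G ω) ∈ T}| * B ≤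
      cost H r p * Nat.card Ω

/-- (1) Average case. -/
def AverageCase : Prop :=
  ∀ R k q b n d : ℕ, 1 ≤ R → 1 ≤ k → 2 ≤ q → k ≤ R * q → 4000 * R ^ 2 ≤ b → k * 2 ^ b ≤ n →
    1200 * R ^ 2 * d ≤ k →
    ∃ (Ω : Type) (_ : Fintype Ω) (_ : Nonempty Ω) (F G : Ω → SimpleGraph (Fin n)),
      (∀ ω, HasClique k (F ω) ∧ ¬ HasClique q (G ω)) ∧ Fooled d (8 ^ (k * b / (4000 * R ^ 2))) F G

/-- The randomized program `v` (`Coins` is the set of the outcomes of the coin tosses) distinguishes
with error `1 / 3` the graphs with a clique of `k` vertices from the graphs without a clique of `q`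
vertices: it accepts if the value of the gate `j₀` is in `T`. -/
def Distinguishes {n : ℕ} {Coins : Type} [Fintype Coins] {V : Type} {s : Coins → ℕ} (k q : ℕ)
    (v : (ρ : Coins) → Fin (s ρ) → SimpleGraph (Fin n) → V) (j₀ : (ρ : Coins) → Fin (s ρ))
    (T : Set V) : Prop :=
  ∀ G : SimpleGraph (Fin n),
    (HasClique k G → 2 / 3 * (Nat.card Coins : ℝ) ≤ Nat.card {ρ // v ρ (j₀ ρ) G ∈ T}) ∧
    (¬ HasClique q G → (Nat.card {ρ // v ρ (j₀ ρ) G ∈ T} : ℝ) ≤ 1 / 3 * Nat.card Coins)

/-- The expected cost of the randomized symmetric programs which distinguish the graphs with `n`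
vertices and a clique of `k` vertices from those without a clique of `q` vertices is at least
`B`. -/
def CostAtLeast (k q n d : ℕ) (B : ℝ) : Prop :=
  ∀ (Coins : Type) [Fintype Coins] (V : Type) (s : Coins → ℕ)
    (v : (ρ : Coins) → Fin (s ρ) → SimpleGraph (Fin n) → V)
    (H : (ρ : Coins) → Fin (s ρ) → Subgroup (Equiv.Perm (Fin n))) (r p : (ρ : Coins) → Fin (s ρ) → ℕ)
    (j₀ : (ρ : Coins) → Fin (s ρ)) (T : Set V),
    (∀ ρ, IsGraphProgram d (v ρ) (H ρ) (r ρ) (p ρ)) → Distinguishes k q v j₀ T →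
    B * Nat.card Coins ≤ ∑ ρ, (cost (H ρ) (r ρ) (p ρ) : ℝ)

/-- (2) Randomized programs. -/
def Randomized : Prop :=
  ∀ R k q n d : ℕ, 1 ≤ R → 3 ≤ k → 2 ≤ q → k ≤ R * q → 1200 * R ^ 2 * d ≤ k →
    2 ^ (4000 * R ^ 2) * k ≤ n →
    CostAtLeast k q n d (((n : ℝ) / k) ^ ((k : ℝ) / (4000 * R ^ 2)))

/-- (3) Cliques with more than `√n` vertices. For `R = 1` and `q = Nat.sqrt n + 1` the programs
decide if the graph has such a clique. -/
def SquareRoot : Prop :=
  ∀ R q n d : ℕ, 1 ≤ R → Nat.sqrt n + 1 ≤ R * q → 1200 * R ^ 2 * d ≤ Nat.sqrt n →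
    2 ^ (8002 * R ^ 2) ≤ n →
    CostAtLeast (Nat.sqrt n + 1) q n d ((n : ℝ) ^ (Real.sqrt n / (9000 * R ^ 2)))

/-- (4) Exhaustive search. -/
def ExhaustiveSearch : Prop :=
  ∀ k n d : ℕ, k ≤ n → 2 ≤ d →
    ∃ (v : Fin 2 → SimpleGraph (Fin n) → Prop) (H : Fin 2 → Subgroup (Equiv.Perm (Fin n))),
      IsGraphProgram d v H (fun _ => 1) (fun _ => 2) ∧ (∀ G, v 1 G ↔ HasClique k G) ∧
      cost H (fun _ => 1) (fun _ => 2) ≤ n.choose k + 1

theorem par {R k b : ℕ} (hR : 1 ≤ R) (hk : 1 ≤ k) (hb : 4000 * R ^ 2 ≤ b) :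
    Par k b (4 * R ^ 2) (4 * R ^ 2 * (k * b)) (k * b / (4000 * R ^ 2)) := by
  have hR2 : 0 < R ^ 2 := by positivity
  have h1 : 1000 * (4 * R ^ 2) = 4000 * R ^ 2 := by ring
  refine ⟨by omega, hk, by omega, rfl, ?_, ?_⟩
  · rw [h1]
    exact Nat.mul_div_le _ _
  · rw [h1]
    exact Nat.lt_mul_div_succ _ (by omega)

theorem average : AverageCase := by
  intro R k q b n d hR hk hq hkq hb hn hd
  have hd' : 300 * (4 * R ^ 2) * d ≤ k := by
    calc 300 * (4 * R ^ 2) * d = 1200 * R ^ 2 * d := by ring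
      _ ≤ k := hd
  have hq' : 4 * k ^ 2 ≤ 4 * R ^ 2 * q ^ 2 := by
    calc 4 * k ^ 2 ≤ 4 * (R * q) ^ 2 := Nat.mul_le_mul_left 4 (Nat.pow_le_pow_left hkq 2)
      _ = 4 * R ^ 2 * q ^ 2 := by ring
  obtain ⟨Ω, i1, i2, F, G, h1, h2⟩ := gap_average (par hR hk hb) hn hd' hq hq'
  refine ⟨Ω, i1, i2, F, G, h1, ?_⟩
  intro s V v H r p hp j₀ T
  exact h2 s V v H r p hp j₀ T

theorem randomized : Randomized := by
  intro R k q n d hR hk hq hkq hd hn Coins _ V s v H r p j₀ T hp hdec
  have hkR : (0 : ℝ) < k := by exact_mod_cast (by omega : 0 < k)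
  have hR2 : 1 ≤ R ^ 2 := Nat.one_le_pow _ _ hR
  have hDR : (0 : ℝ) < 4000 * (R : ℝ) ^ 2 := by
    have : (0 : ℝ) < R := by exact_mod_cast hR
    positivity
  have hP0 : (0 : ℝ) ≤ Nat.card Coins := Nat.cast_nonneg _
  -- the largest possible `b`
  have hex : ∃ b, n < k * 2 ^ (b + 1) := by
    refine ⟨n, ?_⟩
    have h1 : n < 2 ^ (n + 1) := lt_trans (Nat.lt_pow_self (by norm_num))
      (Nat.pow_lt_pow_right (by norm_num) (Nat.lt_succ_self n))
    calc n < 2 ^ (n + 1) := h1
      _ ≤ k * 2 ^ (n + 1) := Nat.le_mul_of_pos_left _ (by omega)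
  classical
  set b := Nat.find hex with hbdef
  have hb1 : n < k * 2 ^ (b + 1) := Nat.find_spec hex
  have hbD : 4000 * R ^ 2 ≤ b := by
    have h1 : k * 2 ^ (4000 * R ^ 2) < k * 2 ^ (b + 1) := by
      refine lt_of_le_of_lt ?_ hb1
      rw [mul_comm]
      exact hn
    have h2 := Nat.lt_of_mul_lt_mul_left h1
    have h3 := (Nat.pow_lt_pow_iff_right (by norm_num : 1 < 2)).mp h2
    omega
  have hb2 : k * 2 ^ b ≤ n := by
    have h1 := Nat.find_min hex (m := b - 1) (by omega)
    rw [not_lt, Nat.sub_add_cancel (by omega)] at h1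
    exact h1
  obtain ⟨Ω, i1, i2, F, G, h1, h2⟩ := average R k q b n d hR (by omega) hq hkq hbD hb2 hd
  set τ := k * b / (4000 * R ^ 2) with hτ
  have h3 := randomized_core F G (fun ρ x => v ρ (j₀ ρ) x ∈ T)
    (fun ρ => (cost (H ρ) (r ρ) (p ρ) : ℝ)) (8 ^ τ) (by positivity)
    (fun ρ => h2 (s ρ) V (v ρ) (H ρ) (r ρ) (p ρ) (hp ρ) (j₀ ρ) T)
    (fun ω => (hdec (F ω)).1 (h1 ω).1) (fun ω => (hdec (G ω)).2 (h1 ω).2)
  refine le_trans ?_ h3
  refine mul_le_mul_of_nonneg_right ?_ hP0
  have hk0 : (0 : ℝ) ≤ (k : ℝ) / (4000 * R ^ 2) := by positivity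
  have h4 : (n : ℝ) / k ≤ (2 : ℝ) ^ ((b : ℝ) + 1) := by
    rw [div_le_iff₀ hkR]
    have h5 : (n : ℝ) ≤ k * 2 ^ (b + 1) := by exact_mod_cast hb1.le
    have h6 : (2 : ℝ) ^ ((b : ℝ) + 1) = 2 ^ (b + 1) := by
      rw [← Real.rpow_natCast]
      congr 1
      push_cast
      ring
    rw [h6, mul_comm]
    exact h5
  have h5 : ((n : ℝ) / k) ^ ((k : ℝ) / (4000 * R ^ 2)) ≤
      (2 : ℝ) ^ (((b : ℝ) + 1) * (k / (4000 * R ^ 2))) := by
    refine (Real.rpow_le_rpow (by positivity) h4 hk0).trans (le_of_eq ?_)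
    rw [← Real.rpow_mul (by norm_num)]
  refine h5.trans ?_
  -- the exponents
  have h6 : ((b : ℝ) + 1) * (k / (4000 * R ^ 2)) ≤ 3 * τ - 2 := by
    have h7 : ((k * b : ℕ) : ℝ) < ((4000 * R ^ 2 * (τ + 1) : ℕ) : ℝ) := by
      exact_mod_cast Nat.lt_mul_div_succ (k * b) (by omega : 0 < 4000 * R ^ 2)
    push_cast at h7
    have h8 : ((4000 * R ^ 2 : ℕ) : ℝ) ≤ b := by exact_mod_cast hbD
    push_cast at h8
    have h9 : (3 : ℝ) ≤ k := by exact_mod_cast hk
    have h10 : (1 : ℝ) ≤ (R : ℝ) ^ 2 := by exact_mod_cast hR2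
    rw [mul_div_assoc', div_le_iff₀ hDR]
    nlinarith
  refine (Real.rpow_le_rpow_of_exponent_le (by norm_num) h6).trans ?_
  have h7 : (2 : ℝ) ^ (3 * (τ : ℝ) - 2) = 8 ^ τ / 4 := by
    rw [Real.rpow_sub (by norm_num), Real.rpow_mul (by norm_num)]
    have h8 : (2 : ℝ) ^ (3 : ℝ) = 8 := by norm_num
    have h9 : (2 : ℝ) ^ (2 : ℝ) = 4 := by norm_num
    rw [h8, h9, Real.rpow_natCast]
  rw [h7]
  have h8 : (0 : ℝ) < 8 ^ τ := by positivity
  linarith

theorem squareRoot : SquareRoot := by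
  intro R q n d hR hq hd hn
  have hR2 : 1 ≤ R ^ 2 := Nat.one_le_pow _ _ hR
  set S := Nat.sqrt n with hS
  have hSS : S * S ≤ n := Nat.sqrt_le n
  have hS1 : 2 ^ (4001 * R ^ 2) ≤ S := by
    rw [hS, Nat.le_sqrt, ← pow_add]
    refine le_trans (Nat.pow_le_pow_right (by norm_num) ?_) hn
    omega
  have hS0 : 4001 * R ^ 2 < S := lt_of_lt_of_le Nat.lt_two_pow_self hS1
  have hRS : R ≤ R ^ 2 := by
    calc R = R ^ 1 := (pow_one R).symm
      _ ≤ R ^ 2 := Nat.pow_le_pow_right hR (by norm_num)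
  have hq2 : 2 ≤ q := by
    by_contra h
    have h1 : q ≤ 1 := by omega
    have h2 : R * q ≤ R * 1 := Nat.mul_le_mul_left R h1
    omega
  have hn' : 2 ^ (4000 * R ^ 2) * (S + 1) ≤ n := by
    calc 2 ^ (4000 * R ^ 2) * (S + 1) ≤ 2 ^ (4000 * R ^ 2) * (2 * S) :=
          Nat.mul_le_mul_left _ (by omega)
      _ = 2 ^ (4000 * R ^ 2 + 1) * S := by ring
      _ ≤ 2 ^ (4001 * R ^ 2) * S :=
          Nat.mul_le_mul_right _ (Nat.pow_le_pow_right (by norm_num) (by omega))
      _ ≤ S * S := Nat.mul_le_mul_right _ hS1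
      _ ≤ n := hSS
  have h1 := randomized R (S + 1) q n d hR (by omega) hq2 hq (by omega) hn'
  have hR0 : (0 : ℝ) < R := by exact_mod_cast hR
  have hn1 : (1 : ℝ) ≤ n := by
    have : 1 ≤ n := le_trans (Nat.one_le_two_pow) hn
    exact_mod_cast this
  have hn0 : (0 : ℝ) < n := by linarith
  have hk1 : Real.sqrt n ≤ ((S + 1 : ℕ) : ℝ) := by
    rw [Real.sqrt_le_left (Nat.cast_nonneg _)]
    have h2 : n < (S + 1) * (S + 1) := Nat.lt_succ_sqrt n
    have h3 : (n : ℝ) < (((S + 1) * (S + 1) : ℕ) : ℝ) := by exact_mod_cast h2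
    push_cast at h3 ⊢
    nlinarith
  have hsq : Real.sqrt n * Real.sqrt n = n := Real.mul_self_sqrt hn0.le
  have hs1 : 1 ≤ Real.sqrt n := Real.one_le_sqrt.mpr hn1
  have hk2 : ((S + 1 : ℕ) : ℝ) ≤ 2 * Real.sqrt n := by
    have h2 : (S : ℝ) ≤ Real.sqrt n := by
      refine Real.le_sqrt_of_sq_le ?_
      have h3 : ((S * S : ℕ) : ℝ) ≤ n := by exact_mod_cast hSS
      push_cast at h3
      nlinarith
    push_cast
    linarith
  have hkpos : (0 : ℝ) < ((S + 1 : ℕ) : ℝ) := by positivity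
  have h2 : (n : ℝ) ^ ((4 : ℝ) / 9) ≤ (n : ℝ) / ((S + 1 : ℕ) : ℝ) := by
    rw [le_div_iff₀ hkpos]
    have h3 : (2 : ℝ) ≤ (n : ℝ) ^ ((1 : ℝ) / 18) := by
      have h4 : ((2 : ℝ) ^ (18 : ℕ)) ≤ n := by
        have h5 : 2 ^ 18 ≤ n := le_trans (Nat.pow_le_pow_right (by norm_num) (by omega)) hn
        exact_mod_cast h5
      have h6 := Real.rpow_le_rpow (by positivity) h4 (by norm_num : (0 : ℝ) ≤ (1 : ℝ) / 18)
      refine le_trans (le_of_eq ?_) h6
      rw [← Real.rpow_natCast, ← Real.rpow_mul (by norm_num)]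
      norm_num
    have h4 : (n : ℝ) ^ ((4 : ℝ) / 9) * (n : ℝ) ^ ((1 : ℝ) / 18) * Real.sqrt n = n := by
      rw [Real.sqrt_eq_rpow, ← Real.rpow_add hn0, ← Real.rpow_add hn0]
      norm_num
    have h5 : (0 : ℝ) ≤ (n : ℝ) ^ ((4 : ℝ) / 9) := Real.rpow_nonneg hn0.le _
    calc (n : ℝ) ^ ((4 : ℝ) / 9) * ((S + 1 : ℕ) : ℝ)
        ≤ (n : ℝ) ^ ((4 : ℝ) / 9) * (2 * Real.sqrt n) := mul_le_mul_of_nonneg_left hk2 h5
      _ ≤ (n : ℝ) ^ ((4 : ℝ) / 9) * ((n : ℝ) ^ ((1 : ℝ) / 18) * Real.sqrt n) :=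
          mul_le_mul_of_nonneg_left (mul_le_mul_of_nonneg_right h3 (by linarith)) h5
      _ = n := by
          rw [← mul_assoc]
          exact h4
  have h3 : (n : ℝ) ^ (Real.sqrt n / (9000 * R ^ 2)) ≤
      ((n : ℝ) / ((S + 1 : ℕ) : ℝ)) ^ ((((S + 1 : ℕ) : ℝ)) / (4000 * R ^ 2)) := by
    have h4 : (0 : ℝ) ≤ (((S + 1 : ℕ) : ℝ)) / (4000 * R ^ 2) := by positivity
    refine le_trans ?_ (Real.rpow_le_rpow (Real.rpow_nonneg hn0.le _) h2 h4)
    rw [← Real.rpow_mul hn0.le]
    refine Real.rpow_le_rpow_of_exponent_le hn1 ?_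
    have h5 : (4 : ℝ) / 9 * ((((S + 1 : ℕ) : ℝ)) / (4000 * R ^ 2)) =
        ((S + 1 : ℕ) : ℝ) / (9000 * R ^ 2) := by
      field_simp
      norm_num
    rw [h5]
    exact div_le_div_of_nonneg_right hk1 (by positivity)
  intro Coins _ V s v H r p j₀ T hp hdec
  refine le_trans ?_ (h1 Coins V s v H r p j₀ T hp hdec)
  exact mul_le_mul_of_nonneg_right h3 (Nat.cast_nonneg _)

/-- The lower bounds and the upper bound. -/
theorem result : AverageCase ∧ Randomized ∧ SquareRoot ∧ ExhaustiveSearch :=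
  ⟨average, randomized, squareRoot, fun _ _ d hk hd => clique_exhaustive hk d hd⟩

end Pool.Agent.Results.MP_0a1b52_lc.SymmetricGapPrograms
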